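import Mathlib
import Pool.Agent.Helper549.Tri.Defs
import Pool.Agent.Helper549.Tri.Basic
import Pool.Agent.Helper549.Tri.Angles
import Pool.Agent.Helper549.Tri.Char
import Pool.Agent.Helper549.Tri.Odd
import Pool.Agent.Helper549.Tri.RealChar
import Pool.Agent.Helper549.Tri.Setup

/-!
# Equilateral triangles tiled by a triangle with an angle of 120 degrees: divisibility
-/

set_option autoImplicit false

noncomputable section
open scoped BigOperators

namespace Pool.Agent.X152.Eq3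

open Pool.Agent.Helper549.Tri Pool.Agent.Helper549.Tri.Basic Pool.Agent.Helper549.Tri.Angles
  Pool.Agent.Helper549.Tri.Char Pool.Agent.Helper549.Tri.Odd Pool.Agent.Helper549.Tri.RealChar

/-! ### Numbers with denominators prime to `a b` -/

/-- `z` becomes an integer after multiplication by a power of `q` -/
def Loc (q : ℤ) (z : ℂ) : Prop := ∃ (K : ℕ) (w : ℤ), (q : ℂ) ^ K * z = w

theorem Loc.zero (q : ℤ) : Loc q 0 := ⟨0, 0, by simp⟩

theorem Loc.one (q : ℤ) : Loc q 1 := ⟨0, 1, by simp⟩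

theorem Loc.add {q : ℤ} {y z : ℂ} (hy : Loc q y) (hz : Loc q z) : Loc q (y + z) := by
  obtain ⟨K, w, h⟩ := hy
  obtain ⟨K', w', h'⟩ := hz
  refine ⟨K + K', q ^ K' * w + q ^ K * w', ?_⟩
  push_cast
  rw [← h, ← h', pow_add]
  ring

theorem Loc.mul {q : ℤ} {y z : ℂ} (hy : Loc q y) (hz : Loc q z) : Loc q (y * z) := by
  obtain ⟨K, w, h⟩ := hy
  obtain ⟨K', w', h'⟩ := hz
  refine ⟨K + K', w * w', ?_⟩
  push_cast
  rw [← h, ← h', pow_add]
  ring

theorem Loc.neg {q : ℤ} {y : ℂ} (hy : Loc q y) : Loc q (-y) := by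
  obtain ⟨K, w, h⟩ := hy
  refine ⟨K, -w, ?_⟩
  push_cast
  rw [← h]
  ring

theorem Loc.sum {q : ℤ} {ι : Type*} (s : Finset ι) (f : ι → ℂ) (h : ∀ i ∈ s, Loc q (f i)) :
    Loc q (∑ i ∈ s, f i) := by
  classical
  induction s using Finset.induction_on with
  | empty => simpa using Loc.zero q
  | insert a s ha ih =>
    rw [Finset.sum_insert ha]
    exact (h a (Finset.mem_insert_self _ _)).add (ih fun i hi => h i (Finset.mem_insert_of_mem hi))

theorem Loc.pow {q : ℤ} {y : ℂ} (hy : Loc q y) (n : ℕ) : Loc q (y ^ n) := by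
  induction n with
  | zero => simpa using Loc.one q
  | succ n ih => rw [pow_succ]; exact ih.mul hy

theorem Loc.zpow {q : ℤ} {y : ℂ} (hy : Loc q y) (hy' : Loc q y⁻¹) (n : ℤ) : Loc q (y ^ n) := by
  cases n with
  | ofNat n => simpa using hy.pow n
  | negSucc n =>
    rw [zpow_negSucc, ← inv_pow]
    exact hy'.pow _

/-! ### Angles -/

theorem cos_ang (v : Fin 3 → ℂ) (hv : 0 < dd v) (k : Fin 3) :
    Real.cos (ang v k) =
      (len v (k + 1) ^ 2 + len v (k + 2) ^ 2 - len v k ^ 2) / (2 * len v (k + 1) * len v (k + 2)) := by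
  have h := EuclideanGeometry.law_cos (v (k + 1)) (v k) (v (k + 2))
  have h0 : dist (v (k + 1)) (v (k + 2)) = len v k := by
    rw [dist_comm, dist_eq_norm]; rfl
  have h1 : dist (v (k + 1)) (v k) = len v (k + 2) := by
    unfold len
    rw [dist_eq_norm, aux_sd2]
  have h2 : dist (v (k + 2)) (v k) = len v (k + 1) := by
    unfold len
    rw [dist_eq_norm, aux_sd1, norm_neg]
  rw [h0, h1, h2] at h
  have p1 := len_pos v hv (k + 1)
  have p2 := len_pos v hv (k + 2)
  rw [eq_div_iff (by positivity)]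
  have e : EuclideanGeometry.angle (v (k + 1)) (v k) (v (k + 2)) = ang v k := rfl
  rw [e] at h
  nlinarith [h]

/-- the angle opposite to the side `ℓ k` -/
def th (ℓ : Fin 3 → ℝ) (k : Fin 3) : ℝ :=
  Real.arccos ((ℓ (k + 1) ^ 2 + ℓ (k + 2) ^ 2 - ℓ k ^ 2) / (2 * ℓ (k + 1) * ℓ (k + 2)))

theorem ang_eq_th (v : Fin 3 → ℂ) (hv : 0 < dd v) (ℓ : Fin 3 → ℝ) (τ : Equiv.Perm (Fin 3))
    (hl : ∀ m, len v m = ℓ (τ m)) (m : Fin 3) : ang v m = th ℓ (τ m) := by
  have h := cos_ang v hv m
  have h1 : ang v m = Real.arccos (Real.cos (ang v m)) :=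
    (Real.arccos_cos (ang_pos v hv m).le (ang_lt_pi v hv m).le).symm
  rw [h1, h, hl, hl, hl]
  unfold th
  rcases Setup.perm3 τ m with ⟨h1, h2⟩ | ⟨h1, h2⟩
  · rw [h1, h2]
  · rw [h1, h2]
    congr 1
    ring

/-! ### The core -/

section core

variable {N : ℕ} {T : Fin 3 → ℂ} {t : Fin N → Fin 3 → ℂ}

theorem core (h : Dis N T t) (hN : 0 < N) (τ : Fin N → Equiv.Perm (Fin 3)) (a b c : ℕ) (ha : 0 < a)
    (hb : 0 < b) (hc : 0 < c) (hab : a.Coprime b) (habc : c ^ 2 = a ^ 2 + b ^ 2 + a * b)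
    (hlen : ∀ i m, len (t i) m = ![(a : ℝ), b, c] (τ i m)) (S : ℝ) (hS : ∀ k, len T k = S) :
    ∃ m : ℕ, S = m * ((a * b : ℕ) : ℝ) := by
  have haR : (0 : ℝ) < a := by exact_mod_cast ha
  have hbR : (0 : ℝ) < b := by exact_mod_cast hb
  have hcR : (0 : ℝ) < c := by exact_mod_cast hc
  have habcR : (c : ℝ) ^ 2 = a ^ 2 + b ^ 2 + a * b := by exact_mod_cast habc
  have habcC : (c : ℂ) ^ 2 = a ^ 2 + b ^ 2 + a * b := by exact_mod_cast habc
  obtain ⟨θ, hθ⟩ : ∃ θ, θ = th ![(a : ℝ), b, c] := ⟨_, rfl⟩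
  have hang : ∀ i m, ang (t i) m = θ (τ i m) := by
    intro i m
    rw [hθ]
    exact ang_eq_th (t i) (h.ccwt i) _ (τ i) (hlen i) m
  let i0 : Fin N := ⟨0, hN⟩
  have tpos : ∀ k, 0 < θ k := by
    intro k
    obtain ⟨m, rfl⟩ := (τ i0).surjective k
    rw [← hang]; exact ang_pos _ (h.ccwt i0) m
  have hsum : θ 0 + θ 1 + θ 2 = Real.pi := by
    rw [← Fin.sum_univ_three, ← Equiv.sum_comp (τ i0), ← ang_sum (t i0) (h.ccwt i0),
      ← Fin.sum_univ_three]
    exact Finset.sum_congr rfl fun m _ => (hang i0 m).symm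
  have hcos2 : θ 2 = 2 * Real.pi / 3 := by
    rw [hθ]
    unfold th
    have e1 : ((2 : Fin 3) + 1) = 0 := rfl
    have e2 : ((2 : Fin 3) + 2) = 1 := rfl
    rw [e1, e2]
    simp only [Matrix.cons_val_zero, Matrix.cons_val_one, Matrix.cons_val]
    have e3 : ((a : ℝ) ^ 2 + b ^ 2 - c ^ 2) / (2 * a * b) = Real.cos (2 * Real.pi / 3) := by
      have e : Real.cos (2 * Real.pi / 3) = -1 / 2 := by
        rw [show 2 * Real.pi / 3 = Real.pi - Real.pi / 3 by ring, Real.cos_pi_sub,
          Real.cos_pi_div_three]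
        norm_num
      rw [e, habcR, div_eq_div_iff (by positivity) (by norm_num)]
      ring
    have hpi := Real.pi_pos
    rw [e3, Real.arccos_cos (by positivity) (by linarith)]
  have hirr : ¬ ∀ k, ∃ q : ℚ, θ k = q * Real.pi := by
    intro hall
    have hpi := Real.pi_pos
    have h0 : θ 0 < Real.pi / 3 := by have := tpos 1; linarith
    have hc0 : Real.cos (θ 0) = ((b : ℝ) ^ 2 + c ^ 2 - a ^ 2) / (2 * b * c) := by
      obtain ⟨m, hm⟩ := (τ i0).surjective 0
      have h1 := cos_ang (t i0) (h.ccwt i0) m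
      rw [hang, hlen, hlen, hlen, hm] at h1
      rw [h1]
      rcases Setup.perm3 (τ i0) m with ⟨h1, h2⟩ | ⟨h1, h2⟩
      · rw [h1, h2, hm]
        simp
      · rw [h1, h2, hm]
        simp
        ring
    have h2 := niven (hall 0) ⟨((b : ℚ) ^ 2 + c ^ 2 - a ^ 2) / (2 * b * c), by
      rw [hc0]; push_cast; ring⟩
    have h3 : Real.cos (Real.pi / 3) < Real.cos (θ 0) :=
      Real.cos_lt_cos_of_nonneg_of_le_pi (tpos 0).le (by linarith) h0
    have h4 : Real.cos (θ 0) < Real.cos 0 :=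
      Real.cos_lt_cos_of_nonneg_of_le_pi le_rfl (by linarith) (tpos 0)
    rw [Real.cos_pi_div_three] at h3
    rw [Real.cos_zero] at h4
    simp only [Set.mem_insert_iff, Set.mem_singleton_iff] at h2
    rcases h2 with h2 | h2 | h2 | h2 | h2 <;> rw [h2] at h3 h4 <;> revert h3 h4 <;> norm_num
  -- the two short sides are different
  have hne : (a : ℤ) ≠ b := by
    intro he
    have he' : a = b := by exact_mod_cast he
    subst he'
    have h1 : a = 1 := by simpa using hab
    subst h1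
    have h2 : c ^ 2 = 3 := by rw [habc]; norm_num
    have h3 : c < 2 := by nlinarith
    interval_cases c <;> omega
  obtain ⟨e, he⟩ : ∃ e : ℤ, e = b - a := ⟨_, rfl⟩
  have he0 : e ≠ 0 := by rw [he]; intro h0; exact hne (by linarith)
  have heC : (e : ℂ) = b - a := by rw [he]; push_cast; ring
  have he0C : (e : ℂ) ≠ 0 := by exact_mod_cast he0
  have hc0C : (c : ℂ) ≠ 0 := by exact_mod_cast hc.ne'
  obtain ⟨x, hx⟩ : ∃ x : ℂ, x = c / e := ⟨_, rfl⟩
  have hx0 : x ≠ 0 := by rw [hx]; exact div_ne_zero hc0C he0C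
  obtain ⟨X, hX⟩ : ∃ X : Fin 3 → ℂ, X = ![x, -x⁻¹, 1] := ⟨_, rfl⟩
  have hX0 : X 0 = x := by rw [hX]; rfl
  have hX1 : X 1 = -x⁻¹ := by rw [hX]; rfl
  have hX2 : X 2 = 1 := by rw [hX]; rfl
  have hz0 : dir T 0 ≠ 0 := by
    intro h1
    have h2 := norm_dir T h.ccwT 0
    rw [h1] at h2
    simp at h2
  obtain ⟨φ, f1, f2, f3⟩ := char_exists θ hsum hirr ![2, 2, -1]
    (by
      rw [Fin.sum_univ_three]
      simp only [Matrix.cons_val_zero, Matrix.cons_val_one, Matrix.cons_val]
      push_cast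
      linarith)
    ⟨2, rfl⟩ X
    (by
      intro k
      fin_cases k
      · show X 0 ≠ 0
        rw [hX0]; exact hx0
      · show X 1 ≠ 0
        rw [hX1]; exact neg_ne_zero.2 (inv_ne_zero hx0)
      · show X 2 ≠ 0
        rw [hX2]; exact one_ne_zero)
    (by rw [hX0, hX1, hX2]; field_simp)
    (by
      rw [Fin.prod_univ_three, hX0, hX1, hX2]
      simp only [Matrix.cons_val_zero, Matrix.cons_val_one, Matrix.cons_val]
      rw [one_zpow, mul_one]
      norm_cast
      field_simp)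
    (dir T 0) hz0
  have hinv : ∀ k z, φ (Complex.exp (-(θ k : ℂ) * Complex.I) * z) = (X k)⁻¹ * φ z := by
    intro k z
    have hk : X k ≠ 0 := by
      fin_cases k
      · show X 0 ≠ 0
        rw [hX0]; exact hx0
      · show X 1 ≠ 0
        rw [hX1]; exact neg_ne_zero.2 (inv_ne_zero hx0)
      · show X 2 ≠ 0
        rw [hX2]; exact one_ne_zero
    have h1 := f3 (Complex.exp (-(θ k : ℂ) * Complex.I) * z) k
    rw [← mul_assoc, ← Complex.exp_add, neg_mul, add_neg_cancel, Complex.exp_zero, one_mul] at h1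
    rw [h1, neg_mul]
    field_simp
  have hrelp : ∀ i k, φ (dir (t i) (k + 2)) = - ((X (τ i k))⁻¹ * φ (dir (t i) (k + 1))) := by
    intro i k
    rw [dir_rel (t i) (h.ccwt i) k, hang, neg_mul, f1, hinv]
  -- the values are in the localisation
  obtain ⟨q, hq⟩ : ∃ q : ℤ, q = c * e := ⟨_, rfl⟩
  have hqC : (q : ℂ) = c * e := by rw [hq]; push_cast; ring
  have lx : Loc q x := ⟨1, c ^ 2, by
    rw [hx, hqC]; push_cast; field_simp⟩
  have lx' : Loc q x⁻¹ := ⟨1, e ^ 2, by
    rw [hx, hqC]; push_cast; field_simp⟩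
  have lval : ∀ i l, Loc q (φ (dir (t i) l)) := by
    intro i l
    obtain ⟨m, y, hy⟩ := dir_coset h τ θ hang i l 0
    have h1 := f2 m y
    rw [← hy] at h1
    rw [h1, Fin.prod_univ_three, hX0, hX1, hX2, one_zpow, mul_one]
    have ln : Loc q (-1) := (Loc.one q).neg
    refine Loc.mul (ln.zpow (by norm_num; exact ln) m) (Loc.mul (lx.zpow lx' _) ?_)
    refine (lx'.neg).zpow ?_ _
    rw [inv_neg, inv_inv]
    exact lx.neg
  -- the contribution of a tile
  have htile : ∀ i, ∃ s : ℂ, Loc q s ∧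
      ∑ k, (len (t i) k : ℂ) * φ (dir (t i) k) = 3 * a * b / e * s := by
    intro i
    obtain ⟨m, hm⟩ := (τ i).surjective 2
    have s0 : ∀ f : Fin 3 → ℂ, ∑ k, f k = f m + f (m + 1) + f (m + 2) := by
      intro f
      rw [Fin.sum_univ_three]
      fin_cases m
      · rfl
      · show f 0 + f 1 + f 2 = f 1 + f 2 + f 0
        ring
      · show f 0 + f 1 + f 2 = f 2 + f 0 + f 1
        ring
    rw [s0]
    have r1 := hrelp i m
    have r2 := hrelp i (m + 1)
    have e1 : m + 1 + 2 = m := (by decide : ∀ m : Fin 3, m + 1 + 2 = m) m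
    have e2 : m + 1 + 1 = m + 2 := (by decide : ∀ m : Fin 3, m + 1 + 1 = m + 2) m
    rw [e1, e2] at r2
    rw [hm, hX2, inv_one, one_mul] at r1
    obtain ⟨p, hp⟩ : ∃ p, p = φ (dir (t i) (m + 1)) := ⟨_, rfl⟩
    rw [← hp] at r1
    rw [r2, r1, ← hp, hlen, hlen, hlen, hm]
    rcases Setup.perm3 (τ i) m with ⟨h1, h2⟩ | ⟨h1, h2⟩
    · rw [hm] at h1 h2
      have h1' : (τ i) (m + 1) = 0 := h1
      have h2' : (τ i) (m + 2) = 1 := h2
      refine ⟨0, Loc.zero q, ?_⟩
      rw [h1', h2', hX0]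
      simp only [Matrix.cons_val_zero, Matrix.cons_val_one, Matrix.cons_val]
      push_cast
      rw [hx, inv_div, mul_zero]
      field_simp
      rw [heC]
      ring
    · rw [hm] at h1 h2
      have h1' : (τ i) (m + 1) = 1 := h1
      have h2' : (τ i) (m + 2) = 0 := h2
      refine ⟨-p, by rw [hp]; exact (lval i _).neg, ?_⟩
      rw [h1', h2', hX1]
      simp only [Matrix.cons_val_zero, Matrix.cons_val_one, Matrix.cons_val]
      push_cast
      rw [hx, inv_neg, inv_inv]
      field_simp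
      rw [heC]
      linear_combination (-p) * habcC
  choose s hs1 hs2 using htile
  -- the big triangle
  have hpi3 : ∀ k, ang T k = Real.pi / 3 := by
    intro k
    have h1 := cos_ang T h.ccwT k
    rw [hS, hS, hS] at h1
    have hSp : 0 < S := by rw [← hS 0]; exact len_pos T h.ccwT 0
    have h2 : Real.cos (ang T k) = Real.cos (Real.pi / 3) := by
      rw [h1, Real.cos_pi_div_three]
      field_simp
      ring
    have hpi := Real.pi_pos
    exact Real.injOn_cos ⟨(ang_pos T h.ccwT k).le, (ang_lt_pi T h.ccwT k).le⟩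
      ⟨by positivity, by linarith⟩ h2
  have hT1 : ∀ z, φ (Complex.exp (((Real.pi / 3 : ℝ) : ℂ) * Complex.I) * z) = - φ z := by
    intro z
    have e1 : Real.pi / 3 = θ 0 + θ 1 := by linarith
    have e2 : Complex.exp (((Real.pi / 3 : ℝ) : ℂ) * Complex.I) * z =
        Complex.exp ((θ 0 : ℂ) * Complex.I) * (Complex.exp ((θ 1 : ℂ) * Complex.I) * z) := by
      rw [e1, ← mul_assoc, ← Complex.exp_add]
      push_cast
      ring_nf
    rw [e2, f3, f3, hX0, hX1]
    field_simp
  have hT2 : ∀ k, φ (dir T (k + 2)) = φ (dir T (k + 1)) := by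
    intro k
    rw [dir_rel T h.ccwT k, hpi3, neg_mul, f1, ← hT1, ← mul_assoc, ← Complex.exp_add, neg_mul,
      add_neg_cancel, Complex.exp_zero, one_mul]
  have hT0 : φ (dir T 0) = 1 := by
    have h1 := f2 0 0
    simpa using h1
  have hT3 : ∑ k, (len T k : ℂ) * φ (dir T k) = 3 * S := by
    rw [Fin.sum_univ_three, hS, hS, hS]
    have a0 : φ (dir T 2) = φ (dir T 1) := hT2 0
    have a1 : φ (dir T 0) = φ (dir T 2) := hT2 1
    rw [← a0, ← a1, hT0]
    ring
  have key := odd_sum h φ f1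
  rw [hT3, Finset.sum_congr rfl fun i _ => hs2 i, ← Finset.mul_sum] at key
  obtain ⟨K, w, hw⟩ := Loc.sum Finset.univ s (fun i _ => hs1 i)
  -- the side is an integer
  obtain ⟨n, hn⟩ : ∃ n : ℕ, S = n := by
    classical
    have h1 := bd_len h 0
    rw [hS] at h1
    have h2 : ∀ i l, ∃ n : ℕ, (if onBd T (t i) l 0 then len (t i) l else 0) = (n : ℝ) := by
      intro i l
      by_cases hb : onBd T (t i) l 0
      · rw [if_pos hb, hlen]
        generalize (τ i) l = r
        fin_cases r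
        · exact ⟨a, rfl⟩
        · exact ⟨b, rfl⟩
        · exact ⟨c, rfl⟩
      · exact ⟨0, by rw [if_neg hb]; simp⟩
    choose g hg using h2
    refine ⟨∑ i, ∑ l, g i l, ?_⟩
    rw [← h1]
    push_cast
    exact Finset.sum_congr rfl fun i _ => Finset.sum_congr rfl fun l _ => hg i l
  have hcab : IsCoprime ((a * b : ℕ) : ℤ) (e * q ^ K) := by
    have hac : a.Coprime c := by
      rw [← Nat.coprime_pow_right_iff (n := 2) (by norm_num), habc]
      have : a ^ 2 + b ^ 2 + a * b = b ^ 2 + a * (a + b) := by ring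
      rw [this, Nat.coprime_add_mul_left_right]
      exact hab.pow_right 2
    have hbc : b.Coprime c := by
      rw [← Nat.coprime_pow_right_iff (n := 2) (by norm_num), habc]
      have : a ^ 2 + b ^ 2 + a * b = a ^ 2 + b * (a + b) := by ring
      rw [this, Nat.coprime_add_mul_left_right]
      exact hab.symm.pow_right 2
    have iac : IsCoprime (a : ℤ) c := Nat.isCoprime_iff_coprime.2 hac
    have ibc : IsCoprime (b : ℤ) c := Nat.isCoprime_iff_coprime.2 hbc
    have iab : IsCoprime (a : ℤ) b := Nat.isCoprime_iff_coprime.2 hab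
    have iae : IsCoprime (a : ℤ) e := by
      rw [he]
      obtain ⟨u, v, huv⟩ := iab
      exact ⟨u + v, v, by linear_combination huv⟩
    have ibe : IsCoprime (b : ℤ) e := by
      rw [he]
      obtain ⟨u, v, huv⟩ := iab
      exact ⟨u + v, -u, by linear_combination huv⟩
    push_cast
    refine IsCoprime.mul_left ?_ ?_
    · exact iae.mul_right (IsCoprime.pow_right (by rw [hq]; exact iac.mul_right iae))
    · exact ibe.mul_right (IsCoprime.pow_right (by rw [hq]; exact ibc.mul_right ibe))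
  have hfin : (n : ℤ) * (e * q ^ K) = ((a * b : ℕ) : ℤ) * w := by
    have h1 : (n : ℂ) * (e * q ^ K) = ((a * b : ℕ) : ℂ) * w := by
      rw [← hw]
      rw [hn] at key
      push_cast at key ⊢
      have h3 : (3 : ℂ) * (n * e) = 3 * (a * b * ∑ i, s i) := by
        have : (3 : ℂ) * a * b / e * (∑ i, s i) * e = 3 * (a * b * ∑ i, s i) := by
          field_simp
        rw [← this, key]
        ring
      have h4 := mul_left_cancel₀ (by norm_num : (3 : ℂ) ≠ 0) h3
      linear_combination (q : ℂ) ^ K * h4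
    exact_mod_cast h1
  have hdvd : ((a * b : ℕ) : ℤ) ∣ n := by
    refine hcab.dvd_of_dvd_mul_right ?_
    exact ⟨w, hfin⟩
  obtain ⟨m, hm⟩ := Int.natCast_dvd_natCast.1 hdvd
  refine ⟨m, ?_⟩
  rw [hn, hm]
  push_cast
  ring

end core

end Pool.Agent.X152.Eq3
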